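import Pool.Agent.H.MP_f322fd_al.Main

set_option autoImplicit false

namespace Pool.Agent.Results.MP_f322fd_al.Counter

theorem result :
    ∃ (A B : Type) (_ : CommRing A) (_ : CommRing B) (_ : Algebra A B) (p : Ideal A),
      IsRegularLocalRing A ∧ IsRegularLocalRing B ∧ CharZero A ∧ CharZero B ∧
      Function.Injective (algebraMap A B) ∧ Module.Finite A B ∧ p.IsPrime ∧
      CharZero (A ⧸ p) ∧
      IsRegularLocalRing (B ⧸ (p.map (algebraMap A B)).radical) ∧
      ¬ IsRegularLocalRing (A ⧸ p) :=
  ⟨H.MP_f322fd_al.A, H.MP_f322fd_al.B, inferInstance, inferInstance, inferInstance,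
    H.MP_f322fd_al.p, inferInstance, inferInstance, inferInstance, inferInstance,
    QuadraticAlgebra.algebraMap_injective, inferInstance, inferInstance, H.MP_f322fd_al.charP,
    H.MP_f322fd_al.regQ, H.MP_f322fd_al.not_reg⟩

end Pool.Agent.Results.MP_f322fd_al.Counter
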